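import Pool.Agent.T2h95.GD.Adapter

/-!
# The Gross-Deligne conjecture: reduction to Hodge classes over cyclic CM fields, up to a finite ambiguity
-/

set_option autoImplicit false

namespace Pool.Agent.Results.MP_b23d8d_ag.CyclicReduction

open Pool.Agent.T2h95.GDS

/-- Let `𝒞` be a class of cohomology structures which is closed under products (Künneth formula) and contains the
Fermat curves, and let `F` be an abelian number field. The following are equivalent:
(1) the Gross-Deligne conjecture for the admissible triples with field `F`;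
(2) the Gross-Deligne conjecture for the triples whose field is a subfield of `F`;
(3) the periods of the triples with field `F` depend only on the Hodge numbers;
(4) the triples of Hodge classes whose field `E` is a cyclic totally complex subfield of `F` consist of de Rham classes;
(5) for each of these `E` and all large weights, the normalised periods of the triples of Hodge classes with field `E`
take only finitely many values modulo the nonzero algebraic numbers. -/
theorem result (𝒞 : HdR → Prop) (hK : Kuenneth 𝒞) (hC : ContainsFermat 𝒞) (F : Type) [Field F] [NumberField F]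
    (d : ℕ) (hF : IsConductor F d) :
    List.TFAE [
      GrossDeligne 𝒞 F,
      ∀ (F' : Type) [Field F'] [NumberField F'], Nonempty (F' →+* F) → GrossDeligne 𝒞 F',
      DependOnHodgeNumbers 𝒞 F,
      ∀ (E : Type) [Field E] [NumberField E], Nonempty (E →+* F) → IsCyclic (E ≃ₐ[ℚ] E) →
        NumberField.IsTotallyComplex E → HodgeClassesDeRham 𝒞 E,
      ∀ (E : Type) [Field E] [NumberField E], Nonempty (E →+* F) → IsCyclic (E ≃ₐ[ℚ] E) →
        NumberField.IsTotallyComplex E → FinitelyManyPeriods 𝒞 E] := by
  have hK' := kuenneth_old hK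
  have hC' := fermat_old hC
  obtain ⟨⟨hd0, s, hs⟩, -⟩ := hF
  tfae_have 1 → 3 := fun h => dep_old.mp (Pool.Agent.T2h95.GD.dep_of_gd hK' hd0 hs (gd_old.mpr h))
  tfae_have 3 → 4 := fun h E _ _ ⟨i⟩ _ hE =>
    hodge_old.mp (Pool.Agent.T2h95.GD.hodge_of_dep hK' hC' hd0 hs (dep_old.mpr h) i hE)
  tfae_have 4 → 2 := fun h F' _ _ ⟨j⟩ =>
    gd_old.mp (Pool.Agent.T2h95.GD.gd_of_hodge hK' hC' fun E _ _ ⟨i⟩ hc hE => hodge_old.mpr (h E ⟨j.comp i⟩ hc hE))
  tfae_have 2 → 1 := fun h => h F ⟨RingHom.id F⟩
  tfae_have 4 → 5 := fun h E _ _ hi hc hE =>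
    fin_old.mp (Pool.Agent.T2h95.GD.fin_of_hodge (hodge_old.mpr (h E hi hc hE)))
  tfae_have 5 → 4 := by
    intro h E _ _ hi hc hE
    have : NeZero d := ⟨hd0.ne'⟩
    obtain ⟨K, _, _, _, e, ζ, t, ht⟩ := Pool.Agent.T2h95.GD.exists_cyc s hs
    obtain ⟨i⟩ := id hi
    obtain ⟨h1, h2⟩ := Pool.Agent.T2h95.GD.one_add_one_ne ht hE (e.comp i)
    exact hodge_old.mp (Pool.Agent.T2h95.GD.hodge_of_fin hK'
      (Pool.Agent.T2h95.GD.base_line ht hK' hC' h1 h2 (e.comp i)) (fin_old.mpr (h E hi hc hE)))
  tfae_finish

end Pool.Agent.Results.MP_b23d8d_ag.CyclicReduction
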