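import Pool.Agent.T2h95.GD.CaseItem

/-!
# Finite verification of the Gross-Deligne conjecture for the powers of a variety
-/

set_option autoImplicit false

open Finset

namespace Pool.Agent.Results.MP_b23d8d_ag.FiniteVerification

open Pool.Agent.T2h95.GDS
open Pool.Agent.T2h95.GD (item gdf_of_holds holds_of_gdf dependsOn_of gdf_rel)

/-- Let `𝓜 i` be finitely many cohomology structures (for example, all the `H^i(X)` of a variety `X`), and let
`N = ∑ i, ⌊dim 𝓜 i / 2⌋`. Among the admissible triples with abelian fields in the structures generated by the `𝓜 i` under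
tensor products, direct sums and substructures (for example, in all the `H^m(X^n)`) there are `r ≤ N` triples
`c 1, ..., c r` such that
(1) every such triple depends on them: its Hodge numbers and, modulo algebraic numbers, its periods are determined by
multiplicative relations, with the same exponents for all conjugates, from those of `c 1, ..., c r` and `π`;
(2) if the Gross-Deligne conjecture holds for `c 1, ..., c r`, it holds for all such triples. -/
theorem result {ι : Type} [Fintype ι] (𝓜 : ι → HdR) :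
    ∃ r ≤ ∑ i, Module.finrank ℚ (𝓜 i).B / 2, ∃ c : Fin r → Case (Generated 𝓜),
      (∀ x : Case (Generated 𝓜), x.DependsOn c) ∧
      ((∀ j, (c j).Holds) → ∀ x : Case (Generated 𝓜), x.Holds) := by
  classical
  set N := ∑ i, Module.finrank ℚ (𝓜 i).B / 2 with hN
  let Ind : ∀ r : ℕ, (Fin r → Case (Generated 𝓜)) → Prop := fun r c => ∀ k : Fin r → ℤ,
    (∀ τ : ℂ ≃+* ℂ, ∏ j, (item (c j) (c j).emb).R τ ^ k j ∈ Qb ∧ ∑ j, k j * (item (c j) (c j).emb).w τ = 0) → k = 0
  have hbound : ∀ r c, Ind r c → r ≤ N := by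
    intro r c h
    by_contra hcon
    push Not at hcon
    obtain ⟨k, hk, hk'⟩ := Pool.Agent.T2h95.GD.rank (fun i => (𝓜 i).toOld) (fun j => item (c j) (c j).emb)
      (by rw [Fintype.card_fin]; exact hcon)
    exact hk (h k hk')
  let P : ℕ → Prop := fun r => ∃ c, Ind r c
  have hP0 : P 0 := ⟨Fin.elim0, fun k _ => Subsingleton.elim _ _⟩
  obtain ⟨r, hrN, c, hc, hmax⟩ : ∃ r ≤ N, ∃ c : Fin r → Case (Generated 𝓜), Ind r c ∧ ∀ c', ¬ Ind (r + 1) c' := by
    obtain ⟨c, hc⟩ : P (Nat.findGreatest P N) := Nat.findGreatest_spec (Nat.zero_le N) hP0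
    exact ⟨_, Nat.findGreatest_le N, c, hc, fun c' h' =>
      Nat.findGreatest_is_greatest (Nat.lt_succ_self _) (hbound _ _ h') ⟨_, h'⟩⟩
  have hrel : ∀ x : Case (Generated 𝓜), ∃ (n : ℤ) (k : Fin r → ℤ), n ≠ 0 ∧ ∀ τ : ℂ ≃+* ℂ,
      n * (item x x.emb).w τ + ∑ j, k j * (item (c j) (c j).emb).w τ = 0 ∧
      (item x x.emb).R τ ^ n * ∏ j, (item (c j) (c j).emb).R τ ^ k j ∈ Qb := by
    intro x
    have h1 : ¬ Ind (r + 1) (Fin.cons x c) := hmax _
    have h2 : ∃ k : Fin (r + 1) → ℤ, (∀ τ : ℂ ≃+* ℂ,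
        ∏ j, (item ((Fin.cons x c : Fin (r + 1) → Case (Generated 𝓜)) j)
          ((Fin.cons x c : Fin (r + 1) → Case (Generated 𝓜)) j).emb).R τ ^ k j ∈ Qb ∧
        ∑ j, k j * (item ((Fin.cons x c : Fin (r + 1) → Case (Generated 𝓜)) j)
          ((Fin.cons x c : Fin (r + 1) → Case (Generated 𝓜)) j).emb).w τ = 0) ∧ k ≠ 0 := by
      by_contra hcon
      push Not at hcon
      exact h1 fun k hk => hcon k hk
    obtain ⟨k, hk, hk0⟩ := h2
    have h3 : ∀ τ : ℂ ≃+* ℂ,
        k 0 * (item x x.emb).w τ + ∑ j : Fin r, k j.succ * (item (c j) (c j).emb).w τ = 0 ∧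
        (item x x.emb).R τ ^ k 0 * ∏ j : Fin r, (item (c j) (c j).emb).R τ ^ k j.succ ∈ Qb := by
      intro τ
      obtain ⟨h4, h5⟩ := hk τ
      rw [Fin.prod_univ_succ] at h4
      rw [Fin.sum_univ_succ] at h5
      exact ⟨h5, h4⟩
    refine ⟨k 0, fun j => k j.succ, fun h0 => hk0 ?_, h3⟩
    have h4 : (fun j : Fin r => k j.succ) = 0 := hc _ fun τ => by
      obtain ⟨h5, h6⟩ := h3 τ
      rw [h0, zero_mul, zero_add] at h5
      rw [h0, zpow_zero, one_mul] at h6
      exact ⟨h6, h5⟩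
    funext j
    refine Fin.cases h0 (fun j => ?_) j
    exact congrFun h4 j
  refine ⟨r, hrN, c, fun x => ?_, fun hGD x => holds_of_gdf x fun σ => ?_⟩
  · obtain ⟨n, k, hn, h⟩ := hrel x
    refine dependsOn_of x c hn (fun j => - k j) fun τ => ?_
    obtain ⟨h1, h2⟩ := h τ
    constructor
    · simp only [neg_mul, Finset.sum_neg_distrib]
      linarith
    · simp only [zpow_neg, Finset.prod_inv_distrib, div_inv_eq_mul]
      exact h2
  · let x' : Case (Generated 𝓜) := ⟨x.M, x.mem, x.F, x.abelian, x.T, x.p, x.hodge, σ⟩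
    obtain ⟨n, k, hn, h⟩ := hrel x'
    exact gdf_rel (item x σ) (fun j => item (c j) (c j).emb) (fun j => gdf_of_holds (c j) (hGD j) _) hn k
      (fun τ => (h τ).1) (fun τ => (h τ).2)

end Pool.Agent.Results.MP_b23d8d_ag.FiniteVerification
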