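import Pool.Agent.T2h95.GD.Triples
import Pool.Agent.T2h95.GD.CaseItem

/-!
# The rank of the group generated by the periods
-/

set_option autoImplicit false

open Finset

namespace Pool.Agent.Results.MP_b23d8d_ag.PeriodRank

open Pool.Agent.T2h95.GDS
open Pool.Agent.T2h95.GD (LItem Gen toLine gen_of_generated rank pi_ne')

/-- Let `𝓜 i` be finitely many cohomology structures (for example, all the `H^i(X)` of a variety `X`). Any
`r > ∑ i, ⌊dim 𝓜 i / 2⌋` admissible triples, with arbitrary number fields and embeddings, in the structures generated by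
the `𝓜 i` under tensor products, direct sums and substructures (for example, in all the `H^m(X^n)`) satisfy a nontrivial
relation: there are integers `k_j`, not all zero, such that for all conjugates `σ_j` by an automorphism of `ℂ` of the
embeddings, `∑_j k_j (2 p_j(σ_j) - m_j) = 0` and `∏_j (P_(σ_j)² / π^(m_j))^(k_j)` is algebraic. -/
theorem result {ι : Type} [Fintype ι] (𝓜 : ι → HdR) {r : ℕ} (hr : ∑ i, Module.finrank ℚ (𝓜 i).B / 2 < r)
    (x : Fin r → Triple (Generated 𝓜)) : ∃ k : Fin r → ℤ, k ≠ 0 ∧ IsRelation x k := by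
  classical
  choose f P hl _ hper using fun j => toLine (x j).T.toOld (x j).p (x j).hodge
  let y : Fin r → LItem (Gen (fun i => (𝓜 i).toOld)) := fun j =>
    ⟨(x j).M.toOld, gen_of_generated (x j).mem, (x j).F, f j, P j, (x j).p, hl j, (x j).emb⟩
  obtain ⟨k, hk, h⟩ := rank (fun i => (𝓜 i).toOld) y (by rw [Fintype.card_fin]; exact hr)
  refine ⟨k, hk, fun τ => ⟨(h τ).2, fun z hz => ?_⟩⟩
  have h1 : ∀ j, ∃ u ∈ Qb, u ≠ 0 ∧ P j ((x j).conj τ) = u * z j := fun j =>
    (hper j _ _).mp ((period_toOld (x j).T _ _).mpr (hz j))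
  choose u hu hu0 h2 using h1
  have h3 : ∀ j, (y j).R τ = (u j) ^ 2 * ((z j) ^ 2 / (Real.pi : ℂ) ^ (x j).M.m) := by
    intro j
    change P j ((x j).conj τ) ^ 2 / (Real.pi : ℂ) ^ (x j).M.m = _
    rw [h2 j]
    ring
  have h4 : ∏ j, ((z j) ^ 2 / (Real.pi : ℂ) ^ (x j).M.m) ^ k j = (∏ j, (y j).R τ ^ k j) / ∏ j, ((u j) ^ 2) ^ k j := by
    rw [eq_div_iff (Finset.prod_ne_zero_iff.mpr fun j _ => zpow_ne_zero _ (pow_ne_zero _ (hu0 j))),
      ← Finset.prod_mul_distrib]
    refine Finset.prod_congr rfl fun j _ => ?_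
    rw [h3 j, mul_zpow, mul_comm]
  rw [h4]
  exact div_mem (h τ).1 (prod_mem fun j _ => zpow_mem (pow_mem (hu j) 2) _)

end Pool.Agent.Results.MP_b23d8d_ag.PeriodRank
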