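import Pool.Agent.T2h95.GD.TwMain

/-!
# The sets of fields for which the Gross-Deligne conjecture can be true
-/

set_option autoImplicit false

namespace Pool.Agent.Results.MP_b23d8d_ag.TruthSets

open Pool.Agent.T2h95.GDS

/-- Let `Z` be a property of number fields. The following are equivalent:
(1) there is a class of cohomology structures, closed under products (Künneth formula) and containing the Fermat curves,
for which the abelian fields `F` such that the Gross-Deligne conjecture is true for the admissible triples with field `F`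
are those with the property `Z`;
(2) there is such a class which is also closed under direct sums, substructures and isomorphisms;
(3) an abelian field `F` has the property `Z` if and only if all cyclic totally complex subfields of `F` have it. -/
theorem result (Z : ∀ (F : Type) [Field F] [NumberField F], Prop) :
    List.TFAE [
      ∃ 𝒞 : HdR → Prop, Kuenneth 𝒞 ∧ ContainsFermat 𝒞 ∧
        ∀ (F : Type) [Field F] [NumberField F], IsAbelian F → (GrossDeligne 𝒞 F ↔ Z F),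
      ∃ 𝒞 : HdR → Prop, Kuenneth 𝒞 ∧ ContainsFermat 𝒞 ∧ SumClosed 𝒞 ∧ SubClosed 𝒞 ∧
        ∀ (F : Type) [Field F] [NumberField F], IsAbelian F → (GrossDeligne 𝒞 F ↔ Z F),
      ∀ (F : Type) [Field F] [NumberField F], IsAbelian F → (Z F ↔
        ∀ (E : Type) [Field E] [NumberField E], Nonempty (E →+* F) → IsCyclic (E ≃ₐ[ℚ] E) →
          NumberField.IsTotallyComplex E → Z E)] := by
  have red : ∀ {𝒞 : HdR → Prop}, Kuenneth 𝒞 → ContainsFermat 𝒞 → ∀ (F : Type) [Field F] [NumberField F],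
      (∀ (E : Type) [Field E] [NumberField E], Nonempty (E →+* F) → IsCyclic (E ≃ₐ[ℚ] E) →
        NumberField.IsTotallyComplex E → HodgeClassesDeRham 𝒞 E) → GrossDeligne 𝒞 F := fun hK hC F _ _ h =>
    gd_old.mp (Pool.Agent.T2h95.GD.gd_of_hodge (kuenneth_old hK) (fermat_old hC) fun E _ _ hi hc hE =>
      hodge_old.mpr (h E hi hc hE))
  have red' : ∀ {𝒞 : HdR → Prop}, Kuenneth 𝒞 → ContainsFermat 𝒞 → ∀ (F : Type) [Field F] [NumberField F],
      IsAbelian F → GrossDeligne 𝒞 F → ∀ (E : Type) [Field E] [NumberField E], Nonempty (E →+* F) →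
        NumberField.IsTotallyComplex E → HodgeClassesDeRham 𝒞 E := by
    intro 𝒞 hK hC F _ _ hF h E _ _ hi hE
    obtain ⟨d, ⟨hd0, s, hs⟩, -⟩ := hF
    obtain ⟨i⟩ := hi
    exact hodge_old.mp (Pool.Agent.T2h95.GD.hodge_of_dep (kuenneth_old hK) (fermat_old hC) hd0 hs
      (Pool.Agent.T2h95.GD.dep_of_gd (kuenneth_old hK) hd0 hs (gd_old.mpr h)) i hE)
  have sub : ∀ (F : Type) [Field F] [NumberField F], IsAbelian F → ∀ (E : Type) [Field E] [NumberField E],
      Nonempty (E →+* F) → IsAbelian E := by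
    classical
    intro F _ _ hF E _ _ hi
    obtain ⟨d, ⟨hd0, s, hs⟩, -⟩ := hF
    obtain ⟨i⟩ := hi
    have hex : ∃ n : ℕ, n ∈ {n : ℕ | 0 < n ∧ ∃ s : E →+* ℂ, ∀ x, s x ∈
      IntermediateField.adjoin ℚ {Complex.exp (2 * Real.pi * Complex.I / n)}} :=
      ⟨d, hd0, s.comp i, fun x => hs (i x)⟩
    exact ⟨Nat.find hex, Nat.find_spec hex, fun m hm => Nat.find_min' hex hm⟩
  tfae_have 2 → 1 := fun ⟨𝒞, hK, hC, _, _, h⟩ => ⟨𝒞, hK, hC, h⟩
  tfae_have 1 → 3 := by
    rintro ⟨𝒞, hK, hC, h⟩ F _ _ hF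
    rw [← h F hF]
    constructor
    · intro hGD E _ _ hi _ _
      obtain ⟨i⟩ := hi
      rw [← h E (sub F hF E ⟨i⟩)]
      exact red hK hC E fun E' _ _ ⟨j⟩ _ hE' => red' hK hC F hF hGD E' ⟨i.comp j⟩ hE'
    · intro hE
      refine red hK hC F fun E _ _ hi hc hcx => ?_
      have hab := sub F hF E hi
      exact red' hK hC E hab ((h E hab).mpr (hE E hi hc hcx)) E ⟨RingHom.id E⟩ hcx
  tfae_have 3 → 2 := by
    intro h
    let S : ∀ (L : Type) [Field L] [NumberField L], Prop := fun L _ _ =>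
      IsAbelian L ∧ IsCyclic (L ≃ₐ[ℚ] L) ∧ NumberField.IsTotallyComplex L ∧ ¬ Z L
    have hS : ∀ (L : Type) [Field L] [NumberField L], S L → Pool.Agent.T2h95.GD.Ab L := by
      rintro L _ _ ⟨⟨d, hd, -⟩, -⟩
      exact ⟨d, hd⟩
    have hK : Kuenneth (Pool.Agent.T2h95.GD.ClsS S) := Pool.Agent.T2h95.GD.kuenneth_clsS
    have hC : ContainsFermat (Pool.Agent.T2h95.GD.ClsS S) := Pool.Agent.T2h95.GD.fermat_clsS
    refine ⟨Pool.Agent.T2h95.GD.ClsS S, hK, hC, Pool.Agent.T2h95.GD.sum_clsS, Pool.Agent.T2h95.GD.sub_clsS,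
      fun F _ _ hF => ⟨fun hGD => ?_, fun hZ => ?_⟩⟩
    · rw [h F hF]
      intro E _ _ hi hc hcx
      by_contra hcon
      obtain ⟨d, ⟨hd0, s, hs⟩, hmin⟩ := sub F hF E hi
      have : NeZero d := ⟨hd0.ne'⟩
      obtain ⟨K, _, _, _, e, ζ, t, ht⟩ := Pool.Agent.T2h95.GD.exists_cyc s hs
      exact Pool.Agent.T2h95.GD.not_hodgeS ht e hc hcx ⟨sub F hF E hi, hc, hcx, hcon⟩
        (red' hK hC F hF hGD E hi hcx)
    · refine red hK hC F fun E _ _ hi hc hcx => ?_
      obtain ⟨i⟩ := hi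
      obtain ⟨d, hd, -⟩ := sub F hF E ⟨i⟩
      refine Pool.Agent.T2h95.GD.hodge_clsS hS ⟨d, hd⟩ fun L _ _ hL ⟨j⟩ => ?_
      obtain ⟨-, hLc, hLcx, hLZ⟩ := hL
      exact hLZ ((h F hF).mp hZ L ⟨i.comp j⟩ hLc hLcx)
  tfae_finish

end Pool.Agent.Results.MP_b23d8d_ag.TruthSets
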